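import Pool.Agent.Y490.UN.Glue
import Pool.Agent.Y490.UN.Good
import Pool.Agent.Results.MP_b531f7_gt.NoUnionConstant

/-!
# Unions of two isometrically `ℓ_p`-embeddable metric spaces: one locally finite space
-/

set_option autoImplicit false

open Pool.Agent.Y490.UN

namespace Pool.Agent.Results.MP_b531f7_gt.OneLocallyFiniteSpace

/-- The real sequence space `ℓ_p`. -/
abbrev Ellp (p : ℝ) : Type := lp (fun _ : ℕ => ℝ) (ENNReal.ofReal p)

/-- The metric space `X` embeds isometrically into `ℓ_p`. -/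
def EmbedsIsometrically (p : ℝ) (X : Type) [MetricSpace X] : Prop :=
  ∃ f : X → Ellp p, ∀ x y : X, ‖f x - f y‖ = dist x y

/-- The metric space `X` embeds into `ℓ_p` with distortion at most `D`. -/
def EmbedsWithDistortion (p D : ℝ) (X : Type) [MetricSpace X] : Prop :=
  ∃ (f : X → Ellp p) (s : ℝ), 0 < s ∧
    ∀ x y : X, s * dist x y ≤ ‖f x - f y‖ ∧ ‖f x - f y‖ ≤ s * D * dist x y

/-- The finite pieces, put on almost the same sphere of large radius. -/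
theorem pieces (p : ℝ) (hp1 : 1 ≤ p) (hp2 : p ≠ 2) (k : ℕ) :
    ∃ (X : Type) (_ : MetricSpace X) (A : Set X) (u : X → ℕ → ℝ) (h : X → ℝ), Finite X ∧
      (∀ x, Summable fun i => |u x i| ^ p) ∧
      (∀ x, ∑' i, |u x i| ^ p = h x ^ p) ∧
      (∀ x ∈ A, ∀ y ∈ A, ∑' i, |u x i - u y i| ^ p = dist x y ^ p) ∧
      (∀ x ∈ Aᶜ, ∀ y ∈ Aᶜ, ∑' i, |u x i - u y i| ^ p = dist x y ^ p) ∧
      (∀ x, (k : ℝ) ≤ h x) ∧ (∀ x, 0 < h x) ∧ (∀ x y, |h x - h y| ≤ dist x y) ∧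
      (∀ x y, dist x y ≤ h x + h y) ∧ ¬ EmbedsWithDistortion p k X := by
  classical
  have : Fact (1 ≤ ENNReal.ofReal p) := ⟨by simpa using hp1⟩
  obtain ⟨X, M, A, B, hfin, hAB, ⟨f, hf⟩, ⟨g, hg⟩, hno⟩ :=
    Pool.Agent.Results.MP_b531f7_gt.NoUnionConstant.result p hp1 hp2 k
  have hB : ∀ x : X, x ∉ A → x ∈ B := by
    intro x hx
    have : x ∈ A ∪ B := by rw [hAB]; trivial
    exact this.resolve_left hx
  set φ : X → ℕ → ℝ := fun x => if hx : x ∈ A then ((f ⟨x, hx⟩ : Lp p) : ℕ → ℝ)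
    else ((g ⟨x, hB x hx⟩ : Lp p) : ℕ → ℝ) with hφ
  obtain ⟨f1, f2⟩ := of_lp (X := A) hp1 f
  obtain ⟨g1, g2⟩ := of_lp (X := B) hp1 g
  have hs : ∀ x, Summable fun i => |φ x i| ^ p := by
    intro x
    by_cases hx : x ∈ A
    · simp only [hφ, dif_pos hx]; exact f1 ⟨x, hx⟩
    · simp only [hφ, dif_neg hx]; exact g1 ⟨x, hB x hx⟩
  have hdA : ∀ x ∈ A, ∀ y ∈ A, ∑' i, |φ x i - φ y i| ^ p = dist x y ^ p := by
    intro x hx y hy
    have h1 := f2 ⟨x, hx⟩ ⟨y, hy⟩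
    have h2 : ‖f ⟨x, hx⟩ - f ⟨y, hy⟩‖ = dist x y := hf ⟨x, hx⟩ ⟨y, hy⟩
    simp only [hφ, dif_pos hx, dif_pos hy]
    rw [h1]
    exact congrArg (· ^ p) h2
  have hdB : ∀ x ∈ Aᶜ, ∀ y ∈ Aᶜ, ∑' i, |φ x i - φ y i| ^ p = dist x y ^ p := by
    intro x hx y hy
    have hx' : x ∉ A := hx
    have hy' : y ∉ A := hy
    have h1 := g2 ⟨x, hB x hx'⟩ ⟨y, hB y hy'⟩
    have h2 : ‖g ⟨x, hB x hx'⟩ - g ⟨y, hB y hy'⟩‖ = dist x y := hg ⟨x, hB x hx'⟩ ⟨y, hB y hy'⟩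
    simp only [hφ, dif_neg hx', dif_neg hy']
    rw [h1]
    exact congrArg (· ^ p) h2
  have key : ∃ (u : X → ℕ → ℝ) (h : X → ℝ), (∀ x, Summable fun i => |u x i| ^ p) ∧
      (∀ x, ∑' i, |u x i| ^ p = h x ^ p) ∧
      (∀ x y, ∑' i, |u x i - u y i| ^ p = ∑' i, |φ x i - φ y i| ^ p) ∧
      (∀ x, (k : ℝ) ≤ h x) ∧ (∀ x, 0 < h x) ∧ (∀ x y, |h x - h y| ≤ dist x y) ∧
      (∀ x y, dist x y ≤ h x + h y) := by
    rcases hp1.lt_or_eq with h | h
    · exact good_gt h φ hs k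
    · subst h
      exact good_one φ hs k
  obtain ⟨u, h, k1, k2, k3, k4, k5, k6, k7⟩ := key
  refine ⟨X, M, A, u, h, hfin, k1, k2, fun x hx y hy => ?_, fun x hx y hy => ?_, k4, k5, k6, k7,
    hno⟩
  · rw [k3]; exact hdA x hx y hy
  · rw [k3]; exact hdB x hx y hy

/-- Let `1 ≤ p < ∞`, `p ≠ 2`. There is one metric space `X`, all of whose balls are finite (in
particular `X` is countable and proper), which is the union of two disjoint sets `A` and `B` that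
both embed isometrically into `ℓ_p`, while `X` does not embed into `ℓ_p` with any finite
distortion. -/
theorem result (p : ℝ) (hp1 : 1 ≤ p) (hp2 : p ≠ 2) :
    ∃ (X : Type) (_ : MetricSpace X) (A B : Set X),
      (∀ (x : X) (r : ℝ), (Metric.closedBall x r).Finite) ∧ A ∪ B = Set.univ ∧ Disjoint A B ∧
      EmbedsIsometrically p A ∧ EmbedsIsometrically p B ∧
      ∀ D : ℝ, ¬ EmbedsWithDistortion p D X := by
  have : Fact (1 ≤ ENNReal.ofReal p) := ⟨by simpa using hp1⟩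
  choose X M A u h hfin h1 h2 h3 h4 h5 h6 h7 h8 h9 using pieces p hp1 hp2
  letI : ∀ k, MetricSpace (X k) := M
  haveI : ∀ k, Finite (X k) := hfin
  letI G : MetricSpace (Σ k, X k) := glue p h hp1 h6 h7 h8
  have hD : ∀ a b : Σ k, X k, dist a b = D p h a b := fun _ _ => rfl
  refine ⟨Σ k, X k, G, {a | a.2 ∈ A a.1}, {a | a.2 ∈ A a.1}ᶜ, ?_, Set.union_compl_self _,
    disjoint_compl_right, ?_, ?_, ?_⟩
  · rintro ⟨k, x⟩ r
    have hsub : Metric.closedBall (⟨k, x⟩ : Σ k, X k) r ⊆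
        ⋃ l ∈ Set.Iic (max k ⌈r⌉₊), (Sigma.mk l) '' (Set.univ : Set (X l)) := by
      rintro ⟨l, y⟩ hy
      rw [Metric.mem_closedBall, hD] at hy
      have hl : l ≤ max k ⌈r⌉₊ := by
        by_cases e : l = k
        · rw [e]; exact le_max_left _ _
        · rw [D_ne p h e] at hy
          have h10 := le_N_left hp1 (h6 l y).le (h6 k x).le
          have h11 := h5 l y
          have h12 : (l : ℝ) ≤ r := by linarith
          have h13 : (l : ℝ) ≤ (⌈r⌉₊ : ℝ) := h12.trans (Nat.le_ceil r)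
          exact (Nat.cast_le.1 h13).trans (le_max_right _ _)
      simp only [Set.mem_iUnion]
      exact ⟨l, hl, y, trivial, rfl⟩
    refine Set.Finite.subset (Set.Finite.biUnion (Set.finite_Iic _) fun l _ => ?_) hsub
    exact Set.Finite.image _ Set.finite_univ
  · obtain ⟨f, hf⟩ := embed hp1 h h6 u h1 h2 {a | a.2 ∈ A a.1}
      (fun k x y hx hy => h3 k x hx y hy)
    exact ⟨f, fun x y => hf x y⟩
  · obtain ⟨f, hf⟩ := embed hp1 h h6 u h1 h2 {a | a.2 ∈ A a.1}ᶜ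
      (fun k x y hx hy => h4 k x hx y hy)
    exact ⟨f, fun x y => hf x y⟩
  · rintro D' ⟨f, s, hs, hf⟩
    obtain ⟨k, hk⟩ := exists_nat_ge D'
    refine h9 k ⟨fun x => f ⟨k, x⟩, s, hs, fun x y => ?_⟩
    have hxy := hf ⟨k, x⟩ ⟨k, y⟩
    rw [hD, D_same] at hxy
    refine ⟨hxy.1, hxy.2.trans ?_⟩
    have h10 : s * D' ≤ s * k := mul_le_mul_of_nonneg_left hk hs.le
    exact mul_le_mul_of_nonneg_right h10 dist_nonneg

end Pool.Agent.Results.MP_b531f7_gt.OneLocallyFiniteSpace
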